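import Pool.Agent.Helper26.DA.Goals

/-!
# Project DA, packet EXP: expansion of the minors along the first row
-/

set_option autoImplicit false

namespace Pool.Agent.Helper20.DA

open Pool.Agent.Helper26.DA

universe w

theorem gEXP : G_EXP.{w} := by
  intro R _ e f t I hI
  unfold MI
  rw [Ideal.span_le]
  rintro m ⟨c, l, hc, rfl⟩
  rw [Matrix.det_succ_row_zero]
  refine Ideal.sum_mem _ fun j _ => ?_
  refine Ideal.mul_mem_mul (Ideal.mul_mem_left _ _ ?_) ?_
  · exact hI (c 0) (hc 0) (l j)
  · refine Ideal.subset_span ⟨fun i => c i.succ, fun i => l (j.succAbove i), fun i => hc i.succ, ?_⟩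
    rfl

end Pool.Agent.Helper20.DA
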